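import Mathlib
import Pool.Agent.N290.RM.Stm

/-!
# Project RN: functions with vanishing area integral, functions asymptotic to functions of one
variable, and arbitrary functions: statements
-/

set_option autoImplicit false

open Complex MeasureTheory Set Filter Topology
open scoped ENNReal

namespace Pool.Agent.N290.RN

open Pool.Agent.N290.RJ Pool.Agent.N290.RK Pool.Agent.N290.RL Pool.Agent.N290.RM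

variable {d : ℕ}

/-- the tails of the area integral near `p` -/
def LTail (R : ℝ) (p : E d) (τ : ℝ → ℝ) (a : E d → ℝ) : Prop := ∀ κ : ℝ, 0 < κ → ∀ z ∈ B d,
  nm (z - p) < R →
  ∫⁻ w in B d, ENNReal.ofReal ((if 1 - N w ≤ κ then a w ^ 2 else 0) * ker z w) ≤
    ENNReal.ofReal (τ κ)

/-- pointwise form of KS -/
def KSP (d : ℕ) : Prop := ∃ C : ℝ, 0 < C ∧ ∀ a : E d → ℝ, AW a → ∀ z ∈ B d,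
  ENNReal.ofReal (a z ^ 2) ≤ ENNReal.ofReal C * ∫⁻ w in B d,
    ENNReal.ofReal ((if 1 - N w ≤ 4 * (1 - N z) then a w ^ 2 else 0) * ker z w)

/-- small solutions near `p` -/
def SSQ (d : ℕ) : Prop := ∀ (C₁ η R : ℝ) (σ : ℝ → ℝ), 0 < C₁ → 0 < η → 0 < R → Van σ →
  ∃ (t₀ C₂ : ℝ) (k₀ : ℕ), 0 < t₀ ∧ 0 < C₂ ∧ ∀ p : E d, N p = 1 →
  ∀ (f : E d → ℂ) (a : E d → ℝ) (P : ℕ → E d → ℂ), DifferentiableOn ℂ f (B d) → AW a →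
  (∀ z ∈ B d, nm (z - p) < R → a z ≤ σ (1 - N z)) → (∀ z ∈ B d, bw z / 2 ≤ a z) →
  (∀ z ∈ B d, ∀ ξ, ‖fderiv ℂ f z ξ‖ ≤ a z * len z ξ) →
  (∀ k, ContDiffOn ℝ 1 (P k) (B d)) →
  (∀ k, ∀ z ∈ B d, ‖P k z‖ ≤ C₁ ∧
    ‖P (k + 1) z - P k z‖ ≤ C₁ * a z * (st k z / ww z k) ∧
    ∀ ξ, ‖fderiv ℝ (P k) z ξ‖ ≤ C₁ * a z * ww z k ^ 3 * len z ξ) →
  ∀ k, k₀ ≤ k → ∃ v : E d → ℂ, ContDiffOn ℝ 1 v {z | z ∈ B d ∧ nm (z - p) < t₀} ∧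
    ∀ z ∈ B d, nm (z - p) < t₀ → ‖v z‖ ≤ η ∧ ∀ ξ,
      ‖db v z ξ - P k z * starRingEnd ℂ (xj f k z ξ)‖ ≤ C₂ * a z ^ 2 * len z ξ

/-- approximation by holomorphic functions near a boundary point, local tails -/
def LALQ (d : ℕ) : Prop := ∀ (C R : ℝ) (τ : ℝ → ℝ), 0 < C → 0 < R → Van τ →
  ∀ η : ℝ, 0 < η → ∃ ρ : ℝ, 0 < ρ ∧ ∀ p : E d, N p = 1 → ∀ a : E d → ℝ, AW a →
    LTail R p τ a → ∀ h : E d → ℂ,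
    ContDiffOn ℝ 1 h {z | z ∈ B d ∧ nm (z - p) < R} →
    (∀ z ∈ B d, nm (z - p) < R → ‖h z‖ ≤ C) →
    (∀ z ∈ B d, nm (z - p) < R → ∀ ξ, ‖db h z ξ‖ ≤ C * a z ^ 2 * len z ξ) →
    ∃ H : E d → ℂ, DifferentiableOn ℂ H (B d) ∧
      ∀ z ∈ B d, nm (z - p) < ρ → ‖H z - h z‖ ≤ η

/-- arbitrary functions, solvable near `p` where the `f j` are small -/
structure ArbL {M L : ℕ} (R ε A : ℝ) (p : E d) (f : Fin M → E d → ℂ) (G κ : Fin L → E d → ℂ) :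
    Prop where
  f1 : ∀ j, DifferentiableOn ℂ (f j) (B d)
  f2 : ∀ j, ∀ z ∈ B d, ‖f j z‖ ≤ 1
  g1 : ∀ l, DifferentiableOn ℂ (G l) (B d)
  g2 : ∀ l, ∀ z ∈ B d, ‖G l z‖ ≤ 1
  k1 : ∀ l, DifferentiableOn ℂ (κ l) {z | z ∈ B d ∧ nm (z - p) < R ∧ ∀ j, ‖f j z‖ < ε}
  k2 : ∀ l, ∀ z ∈ B d, nm (z - p) < R → (∀ j, ‖f j z‖ < ε) → ‖κ l z‖ ≤ A
  k3 : ∀ z ∈ B d, nm (z - p) < R → (∀ j, ‖f j z‖ < ε) → ∑ l, G l z * κ l z = 1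

/-- local solutions near `p` -/
def SolAt {M L : ℕ} (C ρ : ℝ) (p : E d) (f : Fin M → E d → ℂ) (G : Fin L → E d → ℂ) : Prop :=
  ∃ (g : Fin M → E d → ℂ) (h : Fin L → E d → ℂ),
    (∀ j, DifferentiableOn ℂ (g j) {z | z ∈ B d ∧ nm (z - p) < ρ}) ∧
    (∀ l, DifferentiableOn ℂ (h l) {z | z ∈ B d ∧ nm (z - p) < ρ}) ∧
    ∀ z ∈ B d, nm (z - p) < ρ → (∀ j, ‖g j z‖ ≤ C) ∧ (∀ l, ‖h l z‖ ≤ C) ∧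
      ∑ j, f j z * g j z + ∑ l, G l z * h l z = 1

/-- local solutions for dilated data, local hypotheses -/
def LTQ (d : ℕ) : Prop := ∀ (M L : ℕ) (ε A R : ℝ) (τ σ : ℝ → ℝ), 0 < ε → 0 < R → Van τ →
  Van σ → ∃ (C ρ : ℝ) (k₀ : ℕ), 0 < ρ ∧ ∀ p : E d, N p = 1 →
  ∀ (f : Fin M → E d → ℂ) (G κ : Fin L → E d → ℂ) (a : E d → ℝ), ArbL R ε A p f G κ → AW a →
  LTail R p τ a → (∀ z ∈ B d, nm (z - p) < R → a z ≤ σ (1 - N z)) → (∀ z ∈ B d, bw z / 2 ≤ a z) →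
  (∀ j, ∀ z ∈ B d, ∀ ξ, ‖fderiv ℂ (f j) z ξ‖ ≤ a z * len z ξ) →
  ∀ k : ℕ, k₀ ≤ k → SolAt C ρ p (fun j z => f j (rad k • z)) (fun l z => G l (rad k • z))

/-- limits of local solutions -/
def D4K (d : ℕ) : Prop := ∀ (M : ℕ) (C ρ : ℝ) (p : E d) (k₀ : ℕ) (f : Fin M → E d → ℂ),
  (∀ j, DifferentiableOn ℂ (f j) (B d)) →
  (∀ k : ℕ, k₀ ≤ k → ∃ g : Fin M → E d → ℂ,
    (∀ j, DifferentiableOn ℂ (g j) {z | z ∈ B d ∧ nm (z - p) < ρ}) ∧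
    ∀ z ∈ B d, nm (z - p) < ρ → (∀ j, ‖g j z‖ ≤ C) ∧ ∑ j, f j (rad k • z) * g j z = 1) →
  ∃ g : Fin M → E d → ℂ, (∀ j, DifferentiableOn ℂ (g j) {z | z ∈ B d ∧ nm (z - p) < ρ}) ∧
    ∀ z ∈ B d, nm (z - p) < ρ → (∀ j, ‖g j z‖ ≤ C) ∧ ∑ j, f j z * g j z = 1

/-- **the local theorem near one boundary point** -/
def LQ (d : ℕ) : Prop := ∀ (M L : ℕ) (ε A R : ℝ) (τ : ℝ → ℝ), 0 < ε → 0 < R → Van τ →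
  ∃ C ρ : ℝ, 0 < ρ ∧ ∀ p : E d, N p = 1 →
  ∀ (f : Fin M → E d → ℂ) (G κ : Fin L → E d → ℂ) (a : E d → ℝ), ArbL R ε A p f G κ → AW a →
  LTail R p τ a → (∀ j, ∀ z ∈ B d, ∀ ξ, ‖fderiv ℂ (f j) z ξ‖ ≤ a z * len z ξ) →
  SolAt C ρ p f G

/-- the automorphism of the ball which translates the complex geodesic through `0` and `p` -/
noncomputable def mvE (p : E d) (a : ℂ) (z : E d) : E d :=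
  (1 / (1 + starRingEnd ℂ a * ip z p)) •
    ((ip z p + a) • p + ((Real.sqrt (1 - ‖a‖ ^ 2) : ℝ) : ℂ) • (z - ip z p • p))

/-- facts about `mvE` -/
def MVF (d : ℕ) : Prop := ∀ p : E d, N p = 1 → ∀ a : ℂ, ‖a‖ < 1 →
  MapsTo (mvE p a) (B d) (B d) ∧ DifferentiableOn ℂ (mvE p a) (B d) ∧
  (∀ z ∈ B d, ip (mvE p a z) p = (ip z p + a) / (1 + starRingEnd ℂ a * ip z p)) ∧
  ∀ z ∈ B d, ∀ ξ, len (mvE p a z) (fderiv ℂ (mvE p a) z ξ) = len z ξ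

/-- transport of weights -/
def TRP (d : ℕ) : Prop := ∃ C : ℝ, 0 < C ∧ ∀ (p : E d) (a : ℂ) (τ : ℝ → ℝ) (α : E d → ℝ),
  N p = 1 → ‖a‖ < 1 → AW α → Tail τ α → AW (fun z => α (mvE p a z)) ∧
  ∀ κ : ℝ, 0 < κ → ∀ z ∈ B d, ‖ip z p‖ ≤ 1 / 2 →
    ∫⁻ w in B d, ENNReal.ofReal ((if 1 - N w ≤ κ then α (mvE p a w) ^ 2 else 0) * ker z w) ≤
      ENNReal.ofReal (C * (|τ (16 * κ)| + κ))

/-- Whitney localisation along a geodesic, from the library -/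
def WHT (d : ℕ) : Prop := ∀ p : E d, N p = 1 → ∀ (ι : Type) (M : ℕ) (F : ι → Fin M → E d → ℂ)
  (δ : ℝ), 0 < δ → (∀ i j, DifferentiableOn ℂ (F i j) (B d)) →
  (∀ i j, ∀ z ∈ B d, ‖F i j z‖ ≤ 1) → (∀ i, ∀ z ∈ B d, δ ≤ ∑ j, ‖F i j z‖) →
  (∀ q : E d, N q = 1 → ip q p = 0 → ∃ C ρ : ℝ, 0 < ρ ∧ ∀ (i : ι) (a : ℂ), ‖a‖ < 1 →
    ∃ g : Fin M → E d → ℂ, (∀ j, DifferentiableOn ℂ (g j) {z | z ∈ B d ∧ nm (z - q) < ρ}) ∧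
      ∀ z ∈ B d, nm (z - q) < ρ → (∀ j, ‖g j z‖ ≤ C) ∧ ∑ j, F i j (mvE p a z) * g j z = 1) →
  ∃ C : ℝ, ∀ i, ∃ g : Fin M → E d → ℂ, (∀ j, DifferentiableOn ℂ (g j) (B d)) ∧
    ∀ z ∈ B d, (∀ j, ‖g j z‖ ≤ C) ∧ ∑ j, F i j z * g j z = 1

/-- **global theorem**: functions `f j` with vanishing area integral, arbitrary functions
`u i (⟨z, p⟩)` of one variable, arbitrary functions `G l` -/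
def GU (d : ℕ) : Prop := ∀ p : E d, N p = 1 → ∀ (M P L : ℕ) (ε A : ℝ) (τ : ℝ → ℝ), 0 < ε → Van τ →
  ∃ C : ℝ, ∀ (f : Fin M → E d → ℂ) (u : Fin P → ℂ → ℂ) (G κ : Fin L → E d → ℂ) (a : E d → ℝ),
  (∀ j, DifferentiableOn ℂ (f j) (B d)) → (∀ j, ∀ z ∈ B d, ‖f j z‖ ≤ 1) →
  (∀ i, DifferentiableOn ℂ (u i) (Metric.ball 0 1)) → (∀ i, ∀ w ∈ Metric.ball (0 : ℂ) 1, ‖u i w‖ ≤ 1) →
  (∀ l, DifferentiableOn ℂ (G l) (B d)) → (∀ l, ∀ z ∈ B d, ‖G l z‖ ≤ 1) →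
  (∀ l, DifferentiableOn ℂ (κ l)
    {z | z ∈ B d ∧ (∀ j, ‖f j z‖ < ε) ∧ ∀ i, ‖u i (ip z p)‖ < ε}) →
  (∀ z ∈ B d, (∀ j, ‖f j z‖ < ε) → (∀ i, ‖u i (ip z p)‖ < ε) →
    (∀ l, ‖κ l z‖ ≤ A) ∧ ∑ l, G l z * κ l z = 1) →
  AW a → Tail τ a → (∀ j, ∀ z ∈ B d, ∀ ξ, ‖fderiv ℂ (f j) z ξ‖ ≤ a z * len z ξ) →
  ∃ (g : Fin M → E d → ℂ) (h : Fin P → E d → ℂ) (k : Fin L → E d → ℂ),
    (∀ j, DifferentiableOn ℂ (g j) (B d)) ∧ (∀ i, DifferentiableOn ℂ (h i) (B d)) ∧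
    (∀ l, DifferentiableOn ℂ (k l) (B d)) ∧ ∀ z ∈ B d, (∀ j, ‖g j z‖ ≤ C) ∧ (∀ i, ‖h i z‖ ≤ C) ∧
      (∀ l, ‖k l z‖ ≤ C) ∧
      ∑ j, f j z * g j z + ∑ i, u i (ip z p) * h i z + ∑ l, G l z * k l z = 1

/-- **the local theorem, all boundary points** -/
def GPU (d : ℕ) : Prop := ∀ (M : ℕ) (δ : ℝ) (ι : Type) (F : ι → Fin M → E d → ℂ), 0 < δ →
  (∀ a j, DifferentiableOn ℂ (F a j) (B d)) → (∀ a j, ∀ z ∈ B d, ‖F a j z‖ ≤ 1) →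
  (∀ a, ∀ z ∈ B d, δ ≤ ∑ j, ‖F a j z‖) →
  (∀ p : E d, N p = 1 → ∃ (J J' : Finset (Fin M)) (ε A : ℝ) (W : ℝ → ℝ → ℝ) (Q R : ℝ → ℝ),
    0 < ε ∧ (∀ η : ℝ, 0 < η → Van (W η) ∧ 0 < R η) ∧
    ∀ a, (∀ j ∈ J, ∀ η : ℝ, 0 < η → ∃ s : E d → ℂ, VC (W η) (Q η) s ∧
        ∀ z ∈ B d, nm (z - p) < R η → ‖F a j z - s z‖ ≤ η) ∧
      (∀ j ∈ J', ∃ u : ℂ → ℂ, DifferentiableOn ℂ u (Metric.ball 0 1) ∧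
        (∀ w ∈ Metric.ball (0 : ℂ) 1, ‖u w‖ ≤ A) ∧ ∀ η : ℝ, 0 < η →
        ∀ z ∈ B d, nm (z - p) < R η → ‖F a j z - u (ip z p)‖ ≤ η) ∧
      ∃ κ : Fin M → E d → ℂ,
        (∀ l, DifferentiableOn ℂ (κ l)
          {z | z ∈ B d ∧ nm (z - p) < ε ∧ ∀ j ∈ J ∪ J', ‖F a j z‖ < ε}) ∧
        ∀ z ∈ B d, nm (z - p) < ε → (∀ j ∈ J ∪ J', ‖F a j z‖ < ε) →
          (∀ l, ‖κ l z‖ ≤ A) ∧ ∑ l ∈ (J ∪ J')ᶜ, F a l z * κ l z = 1) →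
  ∃ C : ℝ, ∀ a, ∃ g : Fin M → E d → ℂ, (∀ j, DifferentiableOn ℂ (g j) (B d)) ∧
    ∀ z ∈ B d, (∀ j, ‖g j z‖ ≤ C) ∧ ∑ j, F a j z * g j z = 1

end Pool.Agent.N290.RN
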