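import Mathlib
import Pool.Agent.N290.RN.Stm
import Pool.Agent.N290.RM.All2
import Pool.Agent.N919.RN.KSP
import Pool.Agent.N887.RN.SSQ
import Pool.Agent.N402.RN.LALQ
import Pool.Agent.N369.RN.LTQ
import Pool.Agent.N395.RN.LQ
import Pool.Agent.N36.RN.MVF
import Pool.Agent.N700.RN.GU
import Pool.Agent.N833.RN.GPU

/-!
# Project RN: assembly, first part
-/

set_option autoImplicit false

namespace Pool.Agent.N290.RN

open Pool.Agent.N290.RJ Pool.Agent.N290.RL Pool.Agent.N290.RM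

theorem u_KSP (d : ℕ) : KSP d :=
  Pool.Agent.N919.RN.KSP_of d (a_C3 d) (a_C4 d) (a_C4b d) (a_C6 d)

theorem u_SSQ (d : ℕ) : SSQ d := Pool.Agent.N887.RN.SSQ_of d (a_S1 d) (c_YN d) (c_YF d)

theorem u_LALQ (d : ℕ) : LALQ d := Pool.Agent.N402.RN.LALQ_of d (a_Cmain d) (a_C9 d)

theorem u_LTQ (d : ℕ) : LTQ d :=
  Pool.Agent.N369.RN.LTQ_of d (c_YN d) (c_YF d) (c_XG d) (u_SSQ d) (u_LALQ d)

theorem u_MVF (d : ℕ) : MVF d := Pool.Agent.N36.RN.MVF_of d (a_C4b d) (a_C6 d)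

theorem u_LQ' (d : ℕ) (h4 : D4K d) : LQ d :=
  Pool.Agent.N395.RN.LQ_of d (u_KSP d) (e_BW d) (u_LTQ d) h4

theorem u_GPU' (d : ℕ) (h4 : D4K d) (hT : TRP d) (hW : WHT d) : GPU d :=
  Pool.Agent.N833.RN.GPU_of d (e_BW d)
    (Pool.Agent.N700.RN.GU_of d (u_MVF d) hT (u_LQ' d h4) hW) (a_LOC d)

end Pool.Agent.N290.RN
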