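import Mathlib
import Pool.Agent.N290.RN.Stm
import Pool.Agent.N678.RJ.Loc
import Pool.Agent.TH310.Cor.Whit
import Pool.Agent.W732.Cor.All

/-!
# Whitney localisation along a geodesic on `E d` (transfer of the theorem of the library)
-/

set_option autoImplicit false

open Metric Set Filter Topology

namespace Pool.Agent.N290.RN

open Pool.Agent.N290.RJ (E N nm B ip)
open Pool.Agent.TH310.Cor
open Pool.Agent.W732.Cor (mv)
open Pool.Agent.N678.RJ.Loc

variable {d : ℕ}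

lemma inner_eq (P Z : V (d + 1)) : (inner ℂ P Z : ℂ) = ip (Ph Z) (Ph P) := by
  rw [PiLp.inner_apply, Fin.sum_univ_succ]
  simp [Ph, ip]

lemma Ph_mv (P Z : V (d + 1)) (a : ℂ) : Ph (mv P a Z) = mvE (Ph P) a (Ph Z) := by
  unfold mv mvE
  rw [inner_eq]
  ext
  · simp [Ph]
    ring
  · simp [Ph]

theorem u_WHT (d : ℕ) : WHT d := by
  intro p hp ι M F δ hδ hF hb hlow hloc
  have hball : ∀ z : V (d + 1), z ∈ ball (0 : V (d + 1)) 1 → Ph z ∈ B d := by
    intro z hz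
    rw [mem_ball_zero_iff] at hz
    rw [Pool.Agent.N290.RJ.mem_B_nm, nm_Ph]
    exact hz
  have hP : ‖Ps p‖ = 1 := by
    rw [← nm_Ph, Ph_Ps, nm, hp, Real.sqrt_one]
  have hS : Solv (fun (i : ι) (j : Fin M) (z : V (d + 1)) => F i j (Ph z)) := by
    refine whit1 Pool.Agent.W732.Cor.t_mv Pool.Agent.W732.Cor.t_ball hP ?_ hδ
      (fun a z hz => hlow a _ (hball z hz)) ?_
    · intro a j
      exact ⟨(hF a j).comp Ph_diff.differentiableOn hball, fun z hz => hb a j _ (hball z hz)⟩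
    · intro q hq hpq
      obtain ⟨C, ρ, hρ, hg⟩ := hloc (Ph q) (by rw [N_Ph, hq, one_pow])
        (by rw [inner_eq, Ph_Ps] at hpq; exact hpq)
      refine ⟨C, ρ, hρ, fun x => ?_⟩
      obtain ⟨g, hg1, hg2⟩ := hg x.1 x.2 (mem_ball_zero_iff.1 x.2.2)
      have hm : ∀ z ∈ ball (0 : V (d + 1)) 1 ∩ ball q ρ, Ph z ∈ B d ∧ nm (Ph z - Ph q) < ρ := by
        rintro z ⟨hz1, hz2⟩
        refine ⟨hball z hz1, ?_⟩
        rw [← Ph_sub, nm_Ph, ← dist_eq_norm]
        exact hz2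
      refine ⟨fun j z => g j (Ph z), fun j => (hg1 j).comp Ph_diff.differentiableOn hm, ?_, ?_⟩
      · intro j z hz
        exact (hg2 _ (hm z hz).1 (hm z hz).2).1 j
      · intro z hz
        have h2 := (hg2 _ (hm z hz).1 (hm z hz).2).2
        simp only [Ph_mv, Ph_Ps]
        exact h2
  obtain ⟨C, hC⟩ := hS
  have hmem : ∀ w ∈ B d, Ps w ∈ ball (0 : V (d + 1)) 1 := by
    intro w hw
    rw [mem_ball_zero_iff, ← nm_Ph, Ph_Ps]
    exact Pool.Agent.N290.RJ.mem_B_nm.1 hw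
  refine ⟨C, fun a => ?_⟩
  obtain ⟨g, h1, h2, h3⟩ := hC a
  refine ⟨fun j w => g j (Ps w), fun j => (h1 j).comp Ps_diff.differentiableOn hmem, ?_⟩
  intro w hw
  refine ⟨fun j => h2 j _ (hmem w hw), ?_⟩
  have := h3 _ (hmem w hw)
  simp only [Ph_Ps] at this
  exact this

end Pool.Agent.N290.RN
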