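import Mathlib
import Pool.Agent.N290.RN.All0
import Pool.Agent.N290.RN.D4K
import Pool.Agent.N290.RN.WHT
import Pool.Agent.N645.RN.TRP

/-!
# Project RN: assembly
-/

set_option autoImplicit false

namespace Pool.Agent.N290.RN

open Pool.Agent.N290.RJ Pool.Agent.N290.RL Pool.Agent.N290.RM

theorem u_TRP (d : ℕ) : TRP d :=
  Pool.Agent.N645.RN.TRP_of d (a_C3 d) (a_C4 d) (a_C4b d) (a_C6 d) (u_MVF d)

theorem u_GPU (d : ℕ) : GPU d := u_GPU' d (u_D4K d) (u_TRP d) (u_WHT d)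

end Pool.Agent.N290.RN
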