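import Mathlib
import Pool.Agent.N290.RN.Stm
import Pool.Agent.N290.RM.Tr3

/-!
# Transfer of the final theorem of RN to `Fin n → ℂ`
-/

set_option autoImplicit false

open Complex MeasureTheory Set Filter Topology
open scoped ENNReal

namespace Pool.Agent.N290.RN.Tr4

open Pool.Agent.N290.RJ Pool.Agent.N290.RJ.Tr Pool.Agent.N290.RK Pool.Agent.N290.RL
  Pool.Agent.N290.RM Pool.Agent.N290.RM.Tr3

variable {d : ℕ}

/-- the class of approximants: vanishing area integral or square-Dini radial derivative -/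
def Gc {n : ℕ} (τ ω : ℝ → ℝ) (b : ℝ) (s : (Fin n → ℂ) → ℂ) : Prop :=
  Ac τ b s ∨ (DifferentiableOn ℂ s (ball n) ∧ (∀ z ∈ ball n, ‖s z‖ ≤ b) ∧
    ∀ z ∈ ball n, (1 - nrm z) * ‖fderiv ℂ s z z‖ ≤ ω (1 - nrm z))

/-- approximable near `p` -/
def Na {n : ℕ} (τ ω : ℝ → ℝ → ℝ) (b r : ℝ → ℝ) (p : Fin n → ℂ) (f : (Fin n → ℂ) → ℂ) : Prop :=
  ∀ η : ℝ, 0 < η → ∃ s : (Fin n → ℂ) → ℂ, Gc (τ η) (ω η) (b η) s ∧
    ∀ z ∈ ball n, nrm (z - p) < r η → ‖f z - s z‖ ≤ η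

/-- asymptotic at `p` to a bounded function of `⟨z, p⟩` -/
def No {n : ℕ} (A : ℝ) (r : ℝ → ℝ) (p : Fin n → ℂ) (f : (Fin n → ℂ) → ℂ) : Prop :=
  ∃ u : ℂ → ℂ, DifferentiableOn ℂ u (Metric.ball 0 1) ∧
    (∀ w ∈ Metric.ball (0 : ℂ) 1, ‖u w‖ ≤ A) ∧ ∀ η : ℝ, 0 < η →
    ∀ z ∈ ball n, nrm (z - p) < r η → ‖f z - u (herm z p)‖ ≤ η

/-- solvable where small -/
def Sw {n M : ℕ} (ε A : ℝ) (p : Fin n → ℂ) (J : Finset (Fin M))
    (F : Fin M → (Fin n → ℂ) → ℂ) : Prop :=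
  ∃ κ : Fin M → (Fin n → ℂ) → ℂ,
    (∀ l, DifferentiableOn ℂ (κ l) {z | z ∈ ball n ∧ nrm (z - p) < ε ∧ ∀ j ∈ J, ‖F j z‖ < ε}) ∧
    ∀ z ∈ ball n, nrm (z - p) < ε → (∀ j ∈ J, ‖F j z‖ < ε) →
      (∀ l, ‖κ l z‖ ≤ A) ∧ ∑ l ∈ Jᶜ, F l z * κ l z = 1

theorem partU (hd : 1 ≤ d) (h : GPU d) (hSP : SP d) (hSD : SDV d) (M : ℕ) (δ : ℝ) (hδ : 0 < δ)
    (ι : Type) (F : ι → Fin M → (Fin (d + 1) → ℂ) → ℂ) (hF : ∀ a j, UH (F a j))
    (hlow : ∀ a, ∀ z ∈ ball (d + 1), δ ≤ ∑ j, ‖F a j z‖)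
    (hloc : ∀ p : Fin (d + 1) → ℂ, nrm p = 1 → ∃ (J J' : Finset (Fin M)) (ε A : ℝ)
      (τ ω : ℝ → ℝ → ℝ) (b r : ℝ → ℝ), 0 < ε ∧
      (∀ η : ℝ, 0 < η → Van (τ η) ∧ SDM (ω η) ∧ 0 < r η) ∧
      ∀ a, (∀ j ∈ J, Na τ ω b r p (F a j)) ∧ (∀ j ∈ J', No A r p (F a j)) ∧
        Sw ε A p (J ∪ J') (F a)) :
    ∃ C : ℝ, ∀ a, ∃ g : Fin M → (Fin (d + 1) → ℂ) → ℂ,
      (∀ j, DifferentiableOn ℂ (g j) (ball (d + 1))) ∧
      ∀ z ∈ ball (d + 1), (∀ j, ‖g j z‖ ≤ C) ∧ ∑ j, F a j z * g j z = 1 := by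
  obtain ⟨T, h0, h1, hT⟩ := Pool.Agent.N247.RJ.T1 d
  have hmem := mem_T h0 h1
  have hmem' := mem_T' h0 h1
  obtain ⟨C, hC⟩ := h M δ ι (fun a j z => F a j (T z)) hδ
    (fun a j => hol_T h0 h1 (hF a j).1) (fun a j z hz => (hF a j).2 _ ((hmem z).2 hz))
    (fun a z hz => hlow a _ ((hmem z).2 hz))
    (fun p hp => by
      have hp1 : nrm (T p) = 1 := by
        rw [nm_T h0 h1, nm, hp, Real.sqrt_one]
      obtain ⟨J, J', ε, A, τ, ω, b, r, hε, hη, hJ⟩ := hloc (T p) hp1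
      have hsub : ∀ z : E d, nrm (T z - T p) = nm (z - p) := by
        intro z
        rw [← map_sub, nm_T h0 h1]
      have hSD2 : ∀ η : ℝ, ∃ τ' : ℝ → ℝ, 0 < η → Van τ' ∧
          ∀ s : (Fin (d + 1) → ℂ) → ℂ, DifferentiableOn ℂ s (ball (d + 1)) →
          (∀ z ∈ ball (d + 1), ‖s z‖ ≤ b η) →
          (∀ z ∈ ball (d + 1), (1 - nrm z) * ‖fderiv ℂ s z z‖ ≤ ω η (1 - nrm z)) →
          Ac τ' (b η) s := by
        intro η
        by_cases h : 0 < η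
        · obtain ⟨τ', h2, h3⟩ := partD hd hSD (ω η) (b η) (hη η h).2.1
          exact ⟨τ', fun _ => ⟨h2, h3⟩⟩
        · exact ⟨0, fun h2 => absurd h2 h⟩
      choose τ' hτ' using hSD2
      refine ⟨J, J', ε, A, fun η t => |τ η t| + |τ' η t|, fun η => 2 * (|b η| + 1), r, hε,
        fun η h => ⟨?_, (hη η h).2.2⟩, fun a => ⟨fun j hj η hη' => ?_, fun j hj => ?_, ?_⟩⟩
      · unfold Van
        have h2 := ((hη η h).1.abs).add ((hτ' η h).1.abs)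
        simpa using h2
      · obtain ⟨s, hs, hfs⟩ := (hJ a).1 j hj η hη'
        have hAc : ∃ t : ℝ → ℝ, (∀ κ, t κ ≤ |τ η κ| + |τ' η κ|) ∧ Ac t (b η) s := by
          rcases hs with hs | ⟨hs1, hs2, hs3⟩
          · exact ⟨τ η, fun κ => by
              have := le_abs_self (τ η κ)
              have := abs_nonneg (τ' η κ)
              linarith, hs⟩
          · exact ⟨τ' η, fun κ => by
              have := le_abs_self (τ' η κ)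
              have := abs_nonneg (τ η κ)
              linarith, (hτ' η hη').2 s hs1 hs2 hs3⟩
        obtain ⟨t, ht, hAc⟩ := hAc
        refine ⟨fun z => s (T z), vc_mono (vc_T h0 h1 hd hT hSP hAc) ht le_rfl,
          fun z hz hz2 => hfs _ ((hmem z).2 hz) ?_⟩
        rw [hsub]; exact hz2
      · obtain ⟨u, hu1, hu2, hu3⟩ := (hJ a).2.1 j hj
        refine ⟨u, hu1, hu2, fun η hη' z hz hz2 => ?_⟩
        have h2 := hu3 η hη' _ ((hmem z).2 hz) (by rw [hsub]; exact hz2)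
        rw [ip_T h0 h1] at h2
        exact h2
      · obtain ⟨κ, hκ1, hκ2⟩ := (hJ a).2.2
        refine ⟨fun l z => κ l (T z), fun l => (hκ1 l).comp
          T.differentiable.differentiableOn fun z hz => ⟨(hmem z).2 hz.1, ?_, hz.2.2⟩,
          fun z hz hz2 hz3 => hκ2 _ ((hmem z).2 hz) ?_ hz3⟩
        · rw [hsub]; exact hz.2.1
        · rw [hsub]; exact hz2)
  refine ⟨C, fun a => ?_⟩
  obtain ⟨g, hg1, hg2⟩ := hC a
  refine ⟨fun j z => g j (T.symm z), fun j => hol_T' h0 h1 (hg1 j), fun z hz => ?_⟩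
  have h2 := hg2 _ ((hmem' z).2 hz)
  simp only [T.apply_symm_apply] at h2
  exact h2

end Pool.Agent.N290.RN.Tr4
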